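import Pool.Agent.Q112.WL.GroupMain

/-!
The same with the weak near unanimity operation in any of the three classes; sets of pairs in groups.
-/

set_option autoImplicit false
set_option linter.unusedSectionVars false

open Finset Relation

namespace Q112.WL

open Q112.ED (R Lin Latin L)

section
variable {X Y Z : Type} {κ : Type*} [DecidableEq X] [DecidableEq Y] [DecidableEq Z] [DecidableEq κ]
    [Fintype κ]
    {H : Finset (X × Y × Z)} {wX : (κ → X) → X} {wY : (κ → Y) → Y} {wZ : (κ → Z) → Z}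

/-- `w (x, ..., y, ..., x)` does not depend on the position of `y` -/
def Nu {D κ : Type*} [DecidableEq κ] (w : (κ → D) → D) : Prop :=
  ∀ (i j : κ) (a b : D), w (Function.update (fun _ => a) i b) = w (Function.update (fun _ => a) j b)

/-- exchanging the first two coordinates -/
def sw2 (g : X × Y × Z) : Y × X × Z := (g.2.1, g.1, g.2.2)

lemma sw2_inj : Function.Injective (sw2 : X × Y × Z → Y × X × Z) := by
  rintro ⟨a, b, c⟩ ⟨a', b', c'⟩ h
  simp only [sw2, Prod.mk.injEq] at h ⊢
  exact ⟨h.2.1, h.1, h.2.2⟩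

lemma mem_sw2 {a : X} {b : Y} {c : Z} : (b, a, c) ∈ H.image sw2 ↔ (a, b, c) ∈ H := by
  constructor
  · intro h
    obtain ⟨g, hg, h1⟩ := mem_image.1 h
    rw [show g = (a, b, c) from sw2_inj h1] at hg
    exact hg
  · exact fun h => mem_image_of_mem sw2 h

lemma Tab.sw2 {G : Type*} [AddCommGroup G] (h : Tab (H.image sw2) G) : Tab H G := by
  obtain ⟨a, b, c, ha, hb, hc, habc⟩ := h
  refine ⟨b, a, c, hb, ha, hc, fun g h => ?_⟩
  have := habc h g
  rw [add_comm] at this
  exact mem_sw2.1 this

theorem group_main2 [Fintype X] [Fintype Y] [Fintype Z] (hκ : 2 ≤ Fintype.card κ)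
    (hX : ∀ c, wX (fun _ => c) = c) (hY : ∀ c, wY (fun _ => c) = c) (hZ : ∀ c, wZ (fun _ => c) = c)
    (hwnu : Nu wY)
    (hcl : ∀ a : κ → X × Y × Z, (∀ l, a l ∈ H) → WW wX wY wZ a ∈ H) (hl : Lin H) (hne : H.Nonempty) :
    ∃ (G : Type) (_ : AddCommGroup G) (_ : Fintype G), Tab H G ∧
      H.card ^ 2 ≤ Fintype.card G * (Fintype.card X * Fintype.card Y * Fintype.card Z) := by
  have hcl' : ∀ a : κ → Y × X × Z, (∀ l, a l ∈ H.image sw2) → WW wY wX wZ a ∈ H.image sw2 := by
    intro a ha
    choose g hg hga using fun l => mem_image.1 (ha l)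
    have h1 := hcl g hg
    have e : WW wY wX wZ a = sw2 (WW wX wY wZ g) := by
      unfold WW sw2
      simp only [← hga]
      rfl
    rw [e]
    exact mem_image_of_mem sw2 h1
  have hl' : Lin (H.image sw2) := by
    rintro e he e' he' h
    obtain ⟨g, hg, rfl⟩ := mem_image.1 he
    obtain ⟨g', hg', rfl⟩ := mem_image.1 he'
    congr 1
    refine hl g hg g' hg' ?_
    rcases h with h | h | h
    · exact Or.inl ⟨h.2, h.1⟩
    · exact Or.inr (Or.inr h)
    · exact Or.inr (Or.inl h)
  obtain ⟨G, iG, fG, hT, h⟩ := group_main hκ hY hX hZ hwnu hcl' hl' (hne.image sw2)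
  rw [card_image_of_injective _ sw2_inj] at h
  refine ⟨G, iG, fG, hT.sw2, ?_⟩
  rw [show Fintype.card X * Fintype.card Y * Fintype.card Z =
    Fintype.card Y * Fintype.card X * Fintype.card Z by ring]
  exact h

/-- **Large abelian groups in linear systems closed under idempotent operations, one of them weak near
unanimity.** -/
theorem group_any [Fintype X] [Fintype Y] [Fintype Z] (hκ : 2 ≤ Fintype.card κ)
    (hX : ∀ c, wX (fun _ => c) = c) (hY : ∀ c, wY (fun _ => c) = c) (hZ : ∀ c, wZ (fun _ => c) = c)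
    (hwnu : Nu wX ∨ Nu wY ∨ Nu wZ)
    (hcl : ∀ a : κ → X × Y × Z, (∀ l, a l ∈ H) → WW wX wY wZ a ∈ H) (hl : Lin H) (hne : H.Nonempty) :
    ∃ (G : Type) (_ : AddCommGroup G) (_ : Fintype G), Tab H G ∧
      H.card ^ 2 ≤ Fintype.card G * (Fintype.card X * Fintype.card Y * Fintype.card Z) := by
  rcases hwnu with h | h | h
  · exact group_main hκ hX hY hZ h hcl hl hne
  · exact group_main2 hκ hX hY hZ h hcl hl hne
  · exact group_main' hκ hX hY hZ h hcl hl hne

end

section pairs
variable {V : Type} [AddCommGroup V] [Fintype V] [DecidableEq V] {κ : Type*} [DecidableEq κ] [Fintype κ]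

/-- the triples (row, column, diagonal) -/
def rcd (p : V × V) : V × V × V := (p.1, p.2, p.1 + p.2)

lemma rcd_inj : Function.Injective (rcd : V × V → V × V × V) := by
  rintro ⟨a, b⟩ ⟨a', b'⟩ h
  simp only [rcd, Prod.mk.injEq] at h ⊢
  exact ⟨h.1, h.2.1⟩

/-- **Sets of pairs closed under operations of the rows, columns and diagonals** contain large products
of cosets of a subgroup. -/
theorem pairs {A : Finset (V × V)} {w1 w2 w3 : (κ → V) → V} (hκ : 2 ≤ Fintype.card κ)
    (h1 : ∀ c, w1 (fun _ => c) = c) (h2 : ∀ c, w2 (fun _ => c) = c) (h3 : ∀ c, w3 (fun _ => c) = c)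
    (hwnu : Nu w1 ∨ Nu w2 ∨ Nu w3)
    (hcl : ∀ a : κ → V × V, (∀ l, a l ∈ A) → ∃ b ∈ A, b.1 = (w1 fun l => (a l).1) ∧
      b.2 = (w2 fun l => (a l).2) ∧ b.1 + b.2 = w3 fun l => (a l).1 + (a l).2) (hne : A.Nonempty) :
    ∃ (K : AddSubgroup V) (u v : V), (∀ g ∈ K, ∀ h ∈ K, (u + g, v + h) ∈ A) ∧
      A.card ^ 2 ≤ Nat.card K * Fintype.card V ^ 3 := by
  obtain ⟨G, iG, fG, ⟨a, b, c, ha, hb, hc, habc⟩, hcard⟩ := group_any (H := A.image rcd)
    (wX := w1) (wY := w2) (wZ := w3) hκ h1 h2 h3 hwnu
    (by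
      intro a ha
      choose g hg hga using fun l => mem_image.1 (ha l)
      obtain ⟨b, hb, b1, b2, b3⟩ := hcl g hg
      refine mem_image.2 ⟨b, hb, ?_⟩
      unfold rcd WW
      simp only [← hga]
      exact Prod.ext b1 (Prod.ext b2 b3))
    (by
      rintro e he e' he' h
      obtain ⟨g, hg, rfl⟩ := mem_image.1 he
      obtain ⟨g', hg', rfl⟩ := mem_image.1 he'
      congr 1
      simp only [rcd] at h
      rcases h with h | h | h
      · exact Prod.ext h.1 h.2
      · refine Prod.ext h.1 ?_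
        have := h.2
        rw [h.1] at this
        exact add_left_cancel this
      · refine Prod.ext ?_ h.1
        have := h.2
        rw [h.1] at this
        exact add_right_cancel this) (hne.image _)
  have hmem : ∀ g h, (a g, b h) ∈ A ∧ a g + b h = c (g + h) := by
    intro g h
    obtain ⟨p, hp, hpe⟩ := mem_image.1 (habc g h)
    have e1 : p = (a g, b h) := by
      have h1 := congrArg Prod.fst hpe
      have h2 := congrArg (fun q : V × V × V => q.2.1) hpe
      exact Prod.ext h1 h2
    have h3 := congrArg (fun q : V × V × V => q.2.2) hpe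
    rw [e1] at hp h3
    exact ⟨hp, h3⟩
  have hb' : ∀ h, b h - b 0 = a h - a 0 := by
    intro h
    have e1 := (hmem h 0).2
    have e2 := (hmem 0 h).2
    rw [add_zero] at e1
    rw [zero_add] at e2
    have e3 : a h + b 0 = a 0 + b h := e1.trans e2.symm
    rw [sub_eq_sub_iff_add_eq_add, add_comm (b h)]
    exact e3.symm
  have hadd : ∀ g h, a (g + h) - a 0 = (a g - a 0) + (a h - a 0) := by
    intro g h
    have e1 := (hmem g h).2
    have e2 := (hmem (g + h) 0).2
    rw [add_zero] at e2
    have e3 : a g + b h = a (g + h) + b 0 := e1.trans e2.symm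
    rw [← hb' h]
    have e4 : a (g + h) = a g + b h - b 0 := by rw [e3, add_sub_cancel_right]
    rw [e4]
    abel
  let φ : G →+ V :=
    { toFun := fun g => a g - a 0
      map_zero' := sub_self _
      map_add' := hadd }
  have hφ : Function.Injective φ := fun g h hgh => ha (sub_left_injective hgh)
  refine ⟨φ.range, a 0, b 0, ?_, ?_⟩
  · rintro _ ⟨g, rfl⟩ _ ⟨h, rfl⟩
    have e1 : a 0 + φ g = a g := by change a 0 + (a g - a 0) = a g; abel
    have e2 : b 0 + φ h = b h := by change b 0 + (a h - a 0) = b h; rw [← hb' h]; abel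
    rw [e1, e2]
    exact (hmem g h).1
  · rw [card_image_of_injective _ rcd_inj] at hcard
    have e1 : Nat.card φ.range = Fintype.card G := by
      rw [← Nat.card_eq_fintype_card]
      exact (Nat.card_congr (Equiv.ofInjective φ hφ)).symm
    rw [e1]
    calc A.card ^ 2 ≤ _ := hcard
      _ = _ := by ring

end pairs

end Q112.WL
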