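import Pool.Agent.Q112.ED.Count

/-!
Linear tripartite triple systems closed under weak near unanimity operations: the algebra.
-/

set_option autoImplicit false
set_option linter.unusedSectionVars false

open Finset Relation

namespace Q112.WL

variable {P X Y Z κ : Type*} [DecidableEq κ]

/-- the operation `W` induces an operation of the values of `f` -/
def Comp (f : P → X) (W : (κ → P) → P) : Prop := ∀ a b : κ → P, (∀ l, f (a l) = f (b l)) → f (W a) = f (W b)

/-- the data: a connected linear system with an operation -/
structure Sys (x : P → X) (y : P → Y) (z : P → Z) (W : (κ → P) → P) : Prop where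
  hxy : ∀ a b, x a = x b → y a = y b → a = b
  hxz : ∀ a b, x a = x b → z a = z b → a = b
  hyz : ∀ a b, y a = y b → z a = z b → a = b
  cx : Comp x W
  cy : Comp y W
  cz : Comp z W
  idem : ∀ a, W (fun _ => a) = a
  wnu : ∀ (i j : κ) (a b : P), x (W (Function.update (fun _ => a) i b)) = x (W (Function.update (fun _ => a) j b))
  conn : ∀ a b, ReflTransGen (fun a b => x a = x b ∨ y a = y b) a b

variable {x : P → X} {y : P → Y} {z : P → Z} {W : (κ → P) → P}

lemma upd_eq {f : P → X} {u u' : κ → P} (l : κ) (c : P) (h : ∀ i, f (u i) = f (u' i)) (i : κ) :
    f (Function.update u l c i) = f (Function.update u' l c i) := by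
  by_cases hi : i = l
  · rw [hi, Function.update_self, Function.update_self]
  · rw [Function.update_of_ne hi, Function.update_of_ne hi]; exact h i

lemma upd_eq' {f : P → X} (u : κ → P) (l : κ) {c c' : P} (h : f c = f c') (i : κ) :
    f (Function.update u l c i) = f (Function.update u l c' i) := by
  by_cases hi : i = l
  · rw [hi, Function.update_self, Function.update_self]; exact h
  · rw [Function.update_of_ne hi, Function.update_of_ne hi]

/-- the term condition -/
lemma term (hS : Sys x y z W) {u u' : κ → P} (hu : ∀ i, z (u i) = z (u' i)) (l : κ) {v v' : P}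
    (h : W (Function.update u l v) = W (Function.update u' l v)) :
    W (Function.update u l v') = W (Function.update u' l v') := by
  have key : ∀ v v' : P, ReflTransGen (fun a b => x a = x b ∨ y a = y b) v v' →
      W (Function.update u l v) = W (Function.update u' l v) →
      W (Function.update u l v') = W (Function.update u' l v') := by
    intro v v' hv h
    induction hv with
    | refl => exact h
    | @tail b c _ hbc ih =>
      have hz : z (W (Function.update u l c)) = z (W (Function.update u' l c)) :=
        hS.cz _ _ (upd_eq l c hu)
      rcases hbc with h1 | h1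
      · refine hS.hxz _ _ ?_ hz
        rw [← hS.cx _ _ (upd_eq' u l h1), ← hS.cx _ _ (upd_eq' u' l h1), ih]
      · refine hS.hyz _ _ ?_ hz
        rw [← hS.cy _ _ (upd_eq' u l h1), ← hS.cy _ _ (upd_eq' u' l h1), ih]
  exact key v v' (hS.conn v v') h

/-- all parameters may be changed -/
lemma term_all [Fintype κ] (hS : Sys x y z W) {g g' : P} (hz : z g = z g') (j : κ) {v : κ → P}
    (h : W (Function.update v j g) = W (Function.update v j g')) (v' : κ → P) :
    W (Function.update v' j g) = W (Function.update v' j g') := by
  have key : ∀ S : Finset κ, W (Function.update (fun i => if i ∈ S then v' i else v i) j g) =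
      W (Function.update (fun i => if i ∈ S then v' i else v i) j g') := by
    intro S
    induction S using Finset.induction_on with
    | empty => simpa using h
    | insert l S hl ih =>
      by_cases hlj : l = j
      · have e : ∀ c : P, Function.update (fun i => if i ∈ insert l S then v' i else v i) j c =
            Function.update (fun i => if i ∈ S then v' i else v i) j c := by
          intro c
          ext1 i
          by_cases hi : i = j
          · rw [hi, Function.update_self, Function.update_self]
          · rw [Function.update_of_ne hi, Function.update_of_ne hi]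
            have : i ≠ l := by rw [hlj]; exact hi
            simp only [mem_insert, this, false_or]
        rw [e, e]
        exact ih
      · have e : ∀ c : P, Function.update (fun i => if i ∈ insert l S then v' i else v i) j c =
            Function.update (Function.update (fun i => if i ∈ S then v' i else v i) j c) l (v' l) := by
          intro c
          ext1 i
          by_cases hi : i = j
          · rw [hi, Function.update_self, Function.update_of_ne (Ne.symm hlj), Function.update_self]
          · by_cases hil : i = l
            · rw [hil, Function.update_of_ne hlj, Function.update_self, if_pos (mem_insert_self _ _)]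
            · rw [Function.update_of_ne hi, Function.update_of_ne hil, Function.update_of_ne hi]
              simp only [mem_insert, hil, false_or]
        rw [e, e]
        refine term hS (v := if l ∈ S then v' l else v l) ?_ l ?_
        · intro i
          by_cases hi : i = j
          · rw [hi, Function.update_self, Function.update_self]; exact hz
          · rw [Function.update_of_ne hi, Function.update_of_ne hi]
        · have e' : ∀ c : P, Function.update (Function.update (fun i => if i ∈ S then v' i else v i) j c) l
              (if l ∈ S then v' l else v l) = Function.update (fun i => if i ∈ S then v' i else v i) j c := by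
            intro c
            refine Function.update_eq_self_iff.2 ?_
            rw [Function.update_of_ne hlj]
          rw [e', e']
          exact ih
  have := key univ
  simpa using this

/-- translations are injective on the link blocks -/
lemma inj [Fintype κ] (hS : Sys x y z W) {g g' : P} (hz : z g = z g') (j : κ) {v : κ → P}
    (h : W (Function.update v j g) = W (Function.update v j g')) : g = g' := by
  have hA := term_all hS hz j h
  have upd : ∀ (i : κ) (a : P), Function.update (fun _ : κ => a) i a = fun _ => a :=
    fun i a => Function.update_eq_self_iff.2 rfl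
  have hzc : ∀ i : κ, z (W (Function.update (fun _ => g) i g')) = z g := by
    intro i
    rw [← hS.cz _ _ (upd_eq' (fun _ => g) i hz), upd, hS.idem]
  have h1 : ∀ i : κ, W (Function.update (fun _ => g) i g') = g := by
    intro i
    have e1 : W (Function.update (fun _ => g) j g') = g := by
      rw [← hA, upd, hS.idem]
    refine Eq.trans ?_ e1
    refine hS.hxz _ _ (hS.wnu i j g g') ?_
    rw [hzc, hzc]
  have h2 : ∀ (i : κ) (v' : κ → P), W (Function.update v' i g) = W (Function.update v' i g') := by
    intro i v'
    refine term_all hS hz i (v := fun _ => g) ?_ v'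
    rw [h1, upd, hS.idem]
  have h3 : ∀ S : Finset κ, W (fun i => if i ∈ S then g' else g) = g := by
    intro S
    induction S using Finset.induction_on with
    | empty => simpa using hS.idem g
    | insert l S hl ih =>
      have e1 : (fun i => if i ∈ insert l S then g' else g) =
          Function.update (fun i => if i ∈ S then g' else g) l g' := by
        ext1 i
        by_cases hi : i = l
        · rw [hi, Function.update_self, if_pos (mem_insert_self _ _)]
        · rw [Function.update_of_ne hi]
          simp only [mem_insert, hi, false_or]
      rw [e1, ← h2 l]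
      have e2 : Function.update (fun i => if i ∈ S then g' else g) l g =
          fun i => if i ∈ S then g' else g := by
        refine Function.update_eq_self_iff.2 ?_
        rw [if_neg hl]
      rw [e2]
      exact ih
  have h4 := h3 univ
  simp only [mem_univ, if_true] at h4
  rw [hS.idem] at h4
  exact h4.symm

/-- the maps which respect the coordinates and are injective on the link blocks -/
structure Adm (x : P → X) (y : P → Y) (z : P → Z) (f : P → P) : Prop where
  fx : ∀ a b, x a = x b → x (f a) = x (f b)
  fy : ∀ a b, y a = y b → y (f a) = y (f b)
  fz : ∀ a b, z a = z b → z (f a) = z (f b)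
  inj : ∀ a b, z a = z b → f a = f b → a = b

lemma Adm.id : Adm x y z (fun a => a) :=
  ⟨fun _ _ h => h, fun _ _ h => h, fun _ _ h => h, fun _ _ _ h => h⟩

lemma Adm.comp {f g : P → P} (hf : Adm x y z f) (hg : Adm x y z g) : Adm x y z (fun a => f (g a)) :=
  ⟨fun a b h => hf.fx _ _ (hg.fx a b h), fun a b h => hf.fy _ _ (hg.fy a b h),
    fun a b h => hf.fz _ _ (hg.fz a b h),
    fun a b h h' => hg.inj a b h (hf.inj _ _ (hg.fz a b h) h')⟩

lemma Adm.iter {f : P → P} (hf : Adm x y z f) (n : ℕ) : Adm x y z (f^[n]) := by
  induction n with
  | zero => exact Adm.id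
  | succ n ih => exact (ih.comp hf : Adm x y z fun a => f^[n] (f a))

lemma adm_tr [Fintype κ] (hS : Sys x y z W) (v : κ → P) (j : κ) :
    Adm x y z (fun a => W (Function.update v j a)) :=
  ⟨fun _ _ h => hS.cx _ _ (upd_eq' v j h), fun _ _ h => hS.cy _ _ (upd_eq' v j h),
    fun _ _ h => hS.cz _ _ (upd_eq' v j h), fun _ _ h h' => inj hS h j h'⟩

/-- a minimal retraction -/
lemma exists_e [Fintype P] (x : P → X) (y : P → Y) (z : P → Z) : ∃ e : P → P, Adm x y z e ∧
    (∀ a, e (e a) = e a) ∧ ∀ f, Adm x y z f → ∀ a b, e a = a → e b = b → e (f a) = e (f b) → a = b := by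
  classical
  have h1 : ∃ m, ∃ f : P → P, Adm x y z f ∧ (univ.image f).card = m := ⟨_, _, Adm.id, rfl⟩
  obtain ⟨f0, hf0, hm⟩ := Nat.find_spec h1
  have hmin : ∀ f : P → P, Adm x y z f → (univ.image f0).card ≤ (univ.image f).card := by
    intro f hf
    rw [hm]
    exact Nat.find_min' h1 ⟨f, hf, rfl⟩
  obtain ⟨M, hM, hMM⟩ := Q112.ED.exists_idem P (κ := Unit) fun _ => f0
  have hMM := hMM ()
  refine ⟨f0^[M], hf0.iter M, fun a => ?_, ?_⟩
  · rw [← Function.iterate_add_apply, hMM]
  · intro f hf a b ha hb hab
    set e := f0^[M] with he
    have hee : ∀ a, e (e a) = e a := fun a => by rw [he, ← Function.iterate_add_apply, hMM]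
    -- the image of `e` is contained in the image of `f0`
    have hsub : univ.image e ⊆ univ.image f0 := by
      intro c hc
      obtain ⟨d, _, rfl⟩ := mem_image.1 hc
      obtain ⟨M', rfl⟩ := Nat.exists_eq_succ_of_ne_zero hM.ne'
      rw [he, Function.iterate_succ_apply']
      exact mem_image_of_mem _ (mem_univ _)
    have hle : (univ.image e).card ≤ (univ.image f0).card := card_le_card hsub
    -- the map `e ∘ f` from the image of `e` to itself is onto, hence injective
    have h2 : (univ.image e).card ≤ ((univ.image e).image fun c => e (f c)).card := by
      rw [image_image]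
      exact hle.trans (hmin _ (((hf0.iter M).comp hf).comp (hf0.iter M)))
    have h3 : Set.InjOn (fun c => e (f c)) (univ.image e : Finset P) := by
      rw [← card_image_iff]
      exact le_antisymm card_image_le h2
    exact h3 (by rw [← ha]; exact mem_coe.2 (mem_image_of_mem _ (mem_univ _)))
      (by rw [← hb]; exact mem_coe.2 (mem_image_of_mem _ (mem_univ _))) hab

/-- a Maltsev operation on a retract -/
lemma exists_maltsev [Fintype κ] [Fintype P] (hS : Sys x y z W) (hκ : 2 ≤ Fintype.card κ) :
    ∃ (e : P → P) (p : P → P → P → P), Adm x y z e ∧ (∀ a, e (e a) = e a) ∧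
      (∀ a b c, e (p a b c) = p a b c) ∧
      (∀ a b, e a = a → e b = b → p a b b = a ∧ p b b a = a) ∧
      (∀ a b c a' b' c', x a = x a' → x b = x b' → x c = x c' → x (p a b c) = x (p a' b' c')) ∧
      (∀ a b c a' b' c', y a = y a' → y b = y b' → y c = y c' → y (p a b c) = y (p a' b' c')) ∧
      (∀ a b c a' b' c', z a = z a' → z b = z b' → z c = z c' → z (p a b c) = z (p a' b' c')) := by
  classical
  obtain ⟨e, he, hee, hinj⟩ := exists_e x y z
  obtain ⟨j1, j2, hj⟩ := Fintype.exists_pair_of_one_lt_card (show 1 < Fintype.card κ by omega)
  -- the translations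
  let t : κ → P → P → P := fun j b a => e (W (Function.update (fun _ => b) j a))
  obtain ⟨N, hN, hNN⟩ := Q112.ED.exists_idem P (κ := κ × P) fun q => t q.1 q.2
  obtain ⟨N, rfl⟩ := Nat.exists_eq_succ_of_ne_zero hN.ne'
  have ht_self : ∀ j b, e b = b → t j b b = b := by
    intro j b hb
    simp only [t]
    rw [Function.update_eq_self_iff.2 rfl, hS.idem, hb]
  have ht_it : ∀ j b, e b = b → ∀ n, (t j b)^[n] b = b := by
    intro j b hb n
    induction n with
    | zero => rfl
    | succ n ih => rw [Function.iterate_succ_apply, ht_self j b hb, ih]
  have ht_inj : ∀ j b a a', e a = a → e a' = a' → t j b a = t j b a' → a = a' := by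
    intro j b a a' ha ha' h
    exact hinj _ (adm_tr hS (fun _ => b) j) a a' ha ha' h
  have ht_mem : ∀ j b n a, e a = a → e ((t j b)^[n] a) = (t j b)^[n] a := by
    intro j b n
    induction n with
    | zero => intro a ha; exact ha
    | succ n ih =>
      intro a ha
      rw [Function.iterate_succ_apply]
      exact ih _ (hee _)
  have ht_id : ∀ j b a, e a = a → (t j b)^[N + 1] a = a := by
    intro j b a ha
    have h1 : ∀ n a a', e a = a → e a' = a' → (t j b)^[n] a = (t j b)^[n] a' → a = a' := by
      intro n
      induction n with
      | zero => intro a a' _ _ h; exact h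
      | succ n ih =>
        intro a a' ha ha' h
        rw [Function.iterate_succ_apply, Function.iterate_succ_apply] at h
        exact ht_inj j b a a' ha ha' (ih _ _ (hee _) (hee _) h)
    refine h1 (N + 1) _ _ (ht_mem j b _ a ha) ha ?_
    rw [← Function.iterate_add_apply]
    exact congrFun (hNN (j, b)) a
  -- the operation
  let p : P → P → P → P := fun a b c =>
    e (W (Function.update (Function.update (fun _ => b) j1 ((t j1 b)^[N] a)) j2 ((t j2 b)^[N] c)))
  have comp : ∀ (r : P → P → Prop), (∀ a b : κ → P, (∀ l, r (a l) (b l)) → r (W a) (W b)) →
      (∀ a b, r a b → r (e a) (e b)) →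
      ∀ a b c a' b' c', r a a' → r b b' → r c c' → r (p a b c) (p a' b' c') := by
    intro r hW hfe a b c a' b' c' ha hb hc
    have h1 : ∀ j n a a', r a a' → r ((t j b)^[n] a) ((t j b')^[n] a') := by
      intro j n
      induction n with
      | zero => intro a a' h; exact h
      | succ n ih =>
        intro a a' h
        rw [Function.iterate_succ_apply, Function.iterate_succ_apply]
        refine ih _ _ (hfe _ _ (hW _ _ fun i => ?_))
        by_cases hi : i = j
        · rw [hi, Function.update_self, Function.update_self]; exact h
        · rw [Function.update_of_ne hi, Function.update_of_ne hi]; exact hb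
    refine hfe _ _ (hW _ _ fun i => ?_)
    by_cases hi : i = j2
    · rw [hi, Function.update_self, Function.update_self]; exact h1 _ _ _ _ hc
    · rw [Function.update_of_ne hi, Function.update_of_ne hi]
      by_cases hi1 : i = j1
      · rw [hi1, Function.update_self, Function.update_self]; exact h1 _ _ _ _ ha
      · rw [Function.update_of_ne hi1, Function.update_of_ne hi1]; exact hb
  refine ⟨e, p, he, hee, fun a b c => hee _, ?_, comp (fun a b => x a = x b) hS.cx he.fx,
    comp (fun a b => y a = y b) hS.cy he.fy, comp (fun a b => z a = z b) hS.cz he.fz⟩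
  intro a b ha hb
  constructor
  · have e1 : Function.update (Function.update (fun _ : κ => b) j1 ((t j1 b)^[N] a)) j2 ((t j2 b)^[N] b) =
        Function.update (fun _ => b) j1 ((t j1 b)^[N] a) := by
      rw [ht_it j2 b hb]
      refine Function.update_eq_self_iff.2 ?_
      rw [Function.update_of_ne (Ne.symm hj)]
    change e (W (Function.update (Function.update (fun _ : κ => b) j1 ((t j1 b)^[N] a)) j2
      ((t j2 b)^[N] b))) = a
    rw [e1]
    change t j1 b ((t j1 b)^[N] a) = a
    exact (Function.iterate_succ_apply' (t j1 b) N a).symm.trans (ht_id j1 b a ha)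
  · have e1 : Function.update (Function.update (fun _ : κ => b) j1 ((t j1 b)^[N] b)) j2 ((t j2 b)^[N] a) =
        Function.update (fun _ => b) j2 ((t j2 b)^[N] a) := by
      rw [ht_it j1 b hb, Function.update_eq_self_iff.2 rfl]
    change e (W (Function.update (Function.update (fun _ : κ => b) j1 ((t j1 b)^[N] b)) j2
      ((t j2 b)^[N] a))) = a
    rw [e1]
    change t j2 b ((t j2 b)^[N] a) = a
    exact (Function.iterate_succ_apply' (t j2 b) N a).symm.trans (ht_id j2 b a ha)

end Q112.WL
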