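import Pool.Agent.Q112.WL.Core

/-!
Linear tripartite triple systems closed under weak near unanimity operations: abelian groups.
-/

set_option autoImplicit false
set_option linter.unusedSectionVars false

open Finset Relation

namespace Q112.WL

variable {P X Y Z κ : Type*} [DecidableEq κ]
    {x : P → X} {y : P → Y} {z : P → Z} {W : (κ → P) → P}

/-- the term condition -/
lemma tc (hS : Sys x y z W) {f f' : P → P} (fx : ∀ v v', x v = x v' → x (f v) = x (f v'))
    (fy : ∀ v v', y v = y v' → y (f v) = y (f v')) (fx' : ∀ v v', x v = x v' → x (f' v) = x (f' v'))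
    (fy' : ∀ v v', y v = y v' → y (f' v) = y (f' v')) (hz : ∀ v, z (f v) = z (f' v)) {v : P}
    (h : f v = f' v) (v' : P) : f v' = f' v' := by
  have key : ∀ v', ReflTransGen (fun a b => x a = x b ∨ y a = y b) v v' → f v' = f' v' := by
    intro v' hv
    induction hv with
    | refl => exact h
    | @tail b c _ hbc ih =>
      rcases hbc with h1 | h1
      · refine hS.hxz _ _ ?_ (hz c)
        rw [← fx _ _ h1, ← fx' _ _ h1, ih]
      · refine hS.hyz _ _ ?_ (hz c)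
        rw [← fy _ _ h1, ← fy' _ _ h1, ih]
  exact key v' (hS.conn v v')

variable [DecidableEq X] [DecidableEq Y] [DecidableEq Z] [DecidableEq P] [Fintype P] [Fintype κ]

/-- link blocks embed in Cayley tables of abelian groups -/
lemma group (hS : Sys x y z W) (hκ : 2 ≤ Fintype.card κ) (h0 : P) :
    ∃ (D : Finset P) (_ : AddCommGroup D) (a : D → X) (b : D → Y) (c : D → Z),
      (univ.filter fun g => z g = z h0).card ≤ D.card ∧ Function.Injective a ∧
      Function.Injective b ∧ Function.Injective c ∧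
      ∀ g h, ∃ k, x k = a g ∧ y k = b h ∧ z k = c (g + h) := by
  classical
  obtain ⟨e, p, he, hee, hpe, hp, hpx, hpy, hpz⟩ := exists_maltsev hS hκ
  -- the retract is rectangular
  have hrect : ∀ g g', e g = g → e g' = g' → ∃ k, e k = k ∧ x k = x g ∧ y k = y g' := by
    have key : ∀ g g', ReflTransGen (fun a b => x a = x b ∨ y a = y b) g g' → e g = g →
        ∃ k, e k = k ∧ x k = x g ∧ y k = y (e g') := by
      intro g g' h hg
      induction h with
      | refl => exact ⟨g, hg, rfl, by rw [hg]⟩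
      | @tail b c _ hbc ih =>
        obtain ⟨k, hk, hkx, hky⟩ := ih
        rcases hbc with h1 | h1
        · refine ⟨p k (e b) (e c), hpe _ _ _, ?_, ?_⟩
          · have h2 := hpx k (e b) (e c) k (e b) (e b) rfl rfl (he.fx _ _ h1).symm
            rw [(hp k (e b) hk (hee b)).1] at h2
            rw [h2, hkx]
          · have h2 := hpy k (e b) (e c) (e b) (e b) (e c) hky rfl rfl
            rw [(hp (e c) (e b) (hee c) (hee b)).2] at h2
            exact h2
        · exact ⟨k, hk, hkx, by rw [hky]; exact he.fy _ _ h1⟩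
    intro g g' hg hg'
    obtain ⟨k, hk, h1, h2⟩ := key g g' (hS.conn g g') hg
    rw [hg'] at h2
    exact ⟨k, hk, h1, h2⟩
  -- the block in the retract
  set D : Finset P := univ.filter fun g => e g = g ∧ z g = z (e h0) with hD
  have mem_D : ∀ {g}, g ∈ D ↔ e g = g ∧ z g = z (e h0) := by
    intro g
    rw [hD, mem_filter]
    exact ⟨fun h => h.2, fun h => ⟨mem_univ _, h⟩⟩
  have hDcard : (univ.filter fun g => z g = z h0).card ≤ D.card := by
    refine card_le_card_of_injOn e ?_ ?_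
    · intro g hg
      rw [mem_coe, mem_D]
      exact ⟨hee g, he.fz _ _ (mem_filter.1 (mem_coe.1 hg)).2⟩
    · intro g hg g' hg' h
      have h1 := (mem_filter.1 (mem_coe.1 hg)).2
      have h2 := (mem_filter.1 (mem_coe.1 hg')).2
      exact he.inj g g' (h1.trans h2.symm) h
  have hpD : ∀ a ∈ D, ∀ b ∈ D, ∀ c ∈ D, p a b c ∈ D := by
    intro a ha b hb c hc
    rw [mem_D] at ha hb hc ⊢
    refine ⟨hpe _ _ _, ?_⟩
    rw [← ha.2, hpz a b c a a a rfl (hb.2.trans ha.2.symm) (hc.2.trans ha.2.symm),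
      (hp a a ha.1 ha.1).1]
  -- associativity
  have hassoc : ∀ a ∈ D, ∀ b ∈ D, ∀ c ∈ D, ∀ d ∈ D, ∀ f ∈ D,
      p (p a b c) d f = p a b (p c d f) := by
    intro a ha b hb c hc d hd f hf
    have ha' := mem_D.1 ha
    have hb' := mem_D.1 hb
    have hc' := mem_D.1 hc
    have hd' := mem_D.1 hd
    have hf' := mem_D.1 hf
    set q := p a b (p c d f) with hq
    have hqD : q ∈ D := hpD a ha b hb _ (hpD c hc d hd f hf)
    have hq' := mem_D.1 hqD
    have h1 := tc hS (f := fun v => p (p (p v b c) d f) (p v b (p c d f)) q)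
      (f' := fun v => p (p (p v b b) b b) (p v b (p b b b)) q)
      (fun v v' h => hpx _ _ _ _ _ _ (hpx _ _ _ _ _ _ (hpx _ _ _ _ _ _ h rfl rfl) rfl rfl)
        (hpx _ _ _ _ _ _ h rfl rfl) rfl)
      (fun v v' h => hpy _ _ _ _ _ _ (hpy _ _ _ _ _ _ (hpy _ _ _ _ _ _ h rfl rfl) rfl rfl)
        (hpy _ _ _ _ _ _ h rfl rfl) rfl)
      (fun v v' h => hpx _ _ _ _ _ _ (hpx _ _ _ _ _ _ (hpx _ _ _ _ _ _ h rfl rfl) rfl rfl)
        (hpx _ _ _ _ _ _ h rfl rfl) rfl)
      (fun v v' h => hpy _ _ _ _ _ _ (hpy _ _ _ _ _ _ (hpy _ _ _ _ _ _ h rfl rfl) rfl rfl)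
        (hpy _ _ _ _ _ _ h rfl rfl) rfl)
      (fun v => hpz _ _ _ _ _ _
        (hpz _ _ _ _ _ _ (hpz _ _ _ _ _ _ rfl rfl (hc'.2.trans hb'.2.symm))
          (hd'.2.trans hb'.2.symm) (hf'.2.trans hb'.2.symm))
        (hpz _ _ _ _ _ _ rfl rfl (hpz _ _ _ _ _ _ (hc'.2.trans hb'.2.symm) (hd'.2.trans hb'.2.symm)
          (hf'.2.trans hb'.2.symm))) rfl)
      (v := b) ?_ a
    · rw [(hp b b hb'.1 hb'.1).1, (hp a b ha'.1 hb'.1).1, (hp a b ha'.1 hb'.1).1,
        (hp q a hq'.1 ha'.1).2, ← hq] at h1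
      have h2 := (hp (p (p a b c) d f) q (hpe _ _ _) hq'.1).1
      rw [h1] at h2
      exact h2.symm
    · rw [(hp c b hc'.1 hb'.1).2, (hp (p c d f) b (hpe _ _ _) hb'.1).2,
        (hp q (p c d f) hq'.1 (hpe _ _ _)).2, (hp b b hb'.1 hb'.1).1, (hp b b hb'.1 hb'.1).1,
        (hp q b hq'.1 hb'.1).2]
  -- commutativity
  have hcomm : ∀ a ∈ D, ∀ b ∈ D, ∀ c ∈ D, p a b c = p c b a := by
    intro a ha b hb c hc
    have ha' := mem_D.1 ha
    have hb' := mem_D.1 hb
    have hc' := mem_D.1 hc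
    set q := p c b a with hq
    have hqD : q ∈ D := hpD c hc b hb a ha
    have hq' := mem_D.1 hqD
    have h1 := tc hS (f := fun v => p (p v b c) (p c b v) q) (f' := fun v => p (p v b b) (p b b v) q)
      (fun v v' h => hpx _ _ _ _ _ _ (hpx _ _ _ _ _ _ h rfl rfl) (hpx _ _ _ _ _ _ rfl rfl h) rfl)
      (fun v v' h => hpy _ _ _ _ _ _ (hpy _ _ _ _ _ _ h rfl rfl) (hpy _ _ _ _ _ _ rfl rfl h) rfl)
      (fun v v' h => hpx _ _ _ _ _ _ (hpx _ _ _ _ _ _ h rfl rfl) (hpx _ _ _ _ _ _ rfl rfl h) rfl)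
      (fun v v' h => hpy _ _ _ _ _ _ (hpy _ _ _ _ _ _ h rfl rfl) (hpy _ _ _ _ _ _ rfl rfl h) rfl)
      (fun v => hpz _ _ _ _ _ _ (hpz _ _ _ _ _ _ rfl rfl (hc'.2.trans hb'.2.symm))
        (hpz _ _ _ _ _ _ (hc'.2.trans hb'.2.symm) rfl rfl) rfl)
      (v := b) ?_ a
    · rw [(hp a b ha'.1 hb'.1).1, (hp a b ha'.1 hb'.1).2, (hp q a hq'.1 ha'.1).2, ← hq] at h1
      have h2 := (hp (p a b c) q (hpe _ _ _) hq'.1).1
      rw [h1] at h2
      exact h2.symm
    · rw [(hp c b hc'.1 hb'.1).2, (hp c b hc'.1 hb'.1).1, (hp q c hq'.1 hc'.1).2,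
        (hp b b hb'.1 hb'.1).1, (hp q b hq'.1 hb'.1).2]
  -- the group
  have ho : e h0 ∈ D := mem_D.2 ⟨hee h0, rfl⟩
  set o : D := ⟨e h0, ho⟩ with hodef
  have ho' : e o.1 = o.1 := (mem_D.1 o.2).1
  have hDe : ∀ g : D, e g.1 = g.1 := fun g => (mem_D.1 g.2).1
  let addD : D → D → D := fun g h => ⟨p g.1 o.1 h.1, hpD _ g.2 _ o.2 _ h.2⟩
  let negD : D → D := fun g => ⟨p o.1 g.1 o.1, hpD _ o.2 _ g.2 _ o.2⟩
  let iadd : Add D := ⟨addD⟩
  let izero : Zero D := ⟨o⟩
  let ineg : Neg D := ⟨negD⟩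
  have hadd : ∀ g h : D, (g + h).1 = p g.1 o.1 h.1 := fun g h => rfl
  have hzero : (0 : D) = o := rfl
  have hneg : ∀ g : D, (-g).1 = p o.1 g.1 o.1 := fun g => rfl
  have hzadd : ∀ g : D, 0 + g = g := by
    intro g
    apply Subtype.ext
    rw [hadd, hzero]
    exact (hp g.1 o.1 (hDe g) ho').2
  have hcom : ∀ g h : D, g + h = h + g := fun g h =>
    Subtype.ext (hcomm _ g.2 _ o.2 _ h.2)
  have hass : ∀ g h k : D, g + h + k = g + (h + k) := fun g h k =>
    Subtype.ext (hassoc _ g.2 _ o.2 _ h.2 _ o.2 _ k.2)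
  have hinv : ∀ g : D, -g + g = 0 := by
    intro g
    apply Subtype.ext
    rw [hadd, hneg, hcomm _ (hpD _ o.2 _ g.2 _ o.2) _ o.2 _ g.2, ← hassoc _ g.2 _ o.2 _ o.2 _ g.2 _ o.2,
      (hp g.1 o.1 (hDe g) ho').1, (hp o.1 g.1 ho' (hDe g)).2, hzero]
  let igrp : AddCommGroup D :=
    { add := (· + ·)
      zero := 0
      neg := Neg.neg
      add_assoc := hass
      zero_add := hzadd
      add_zero := fun g => by rw [hcom, hzadd]
      nsmul := nsmulRec
      zsmul := zsmulRec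
      neg_add_cancel := hinv
      add_comm := hcom }
  -- the cell with given row and column
  choose k hke hkx hky using fun (g h : D) => hrect g.1 h.1 (hDe g) (hDe h)
  have hkz : ∀ g h : D, z (k g (-h)) = z (k (g + h) 0) := by
    intro g h
    have e1 : p (k g (-h)) (-h).1 o.1 = k (g + h) 0 := by
      refine hS.hxy _ _ ?_ ?_
      · rw [hkx, hpx (k g (-h)) (-h).1 o.1 g.1 (-h).1 o.1 (hkx g (-h)) rfl rfl]
        congr 1
        -- `g - (-h) + 0`
        have h1 : p g.1 (-h).1 o.1 = (g + h).1 := by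
          have h2 := hassoc _ g.2 _ o.2 _ o.2 _ (-h).2 _ o.2
          rw [(hp g.1 o.1 (hDe g) ho').1] at h2
          rw [h2, hadd]
          congr 1
          -- `0 - (-h) + 0 = h`
          have h3 : (⟨p o.1 (-h).1 o.1, hpD _ o.2 _ (-h).2 _ o.2⟩ : D) = - -h := rfl
          have h4 : (- -h : D) = h := neg_neg h
          exact congrArg Subtype.val (h3.trans h4)
        exact h1
      · rw [hky, hpy (k g (-h)) (-h).1 o.1 (-h).1 (-h).1 o.1 (hky g (-h)) rfl rfl,
          (hp o.1 (-h).1 ho' (hDe (-h))).2]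
        rfl
    rw [← e1, hpz (k g (-h)) (-h).1 o.1 (k g (-h)) o.1 o.1 rfl
      ((mem_D.1 (-h).2).2.trans (mem_D.1 o.2).2.symm) rfl, (hp _ o.1 (hke g (-h)) ho').1]
  refine ⟨D, igrp, fun g => x g.1, fun h => y (-h).1, fun s => z (k s 0), hDcard, ?_, ?_, ?_, ?_⟩
  · intro g h hgh
    exact Subtype.ext (hS.hxz _ _ hgh ((mem_D.1 g.2).2.trans (mem_D.1 h.2).2.symm))
  · intro g h hgh
    have h1 : -g = -h :=
      Subtype.ext (hS.hyz _ _ hgh ((mem_D.1 (-g).2).2.trans (mem_D.1 (-h).2).2.symm))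
    exact neg_injective h1
  · intro g h hgh
    have h1 : k g 0 = k h 0 := hS.hyz _ _ (by rw [hky, hky]) hgh
    have h2 : x g.1 = x h.1 := by rw [← hkx g 0, ← hkx h 0, h1]
    exact Subtype.ext (hS.hxz _ _ h2 ((mem_D.1 g.2).2.trans (mem_D.1 h.2).2.symm))
  · intro g h
    exact ⟨k g (-h), hkx _ _, hky _ _, hkz g h⟩

end Q112.WL
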