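import Pool.Agent.Q112.WL.Main
import Pool.Agent.Q112.ED.Removal
import Pool.Agent.Q112.ED.Edge

/-!
Latin squares in sparse systems, and the example.
-/

set_option autoImplicit false
set_option linter.unusedSectionVars false

open Finset Relation

namespace Q112.WL

open Q112.ED (R Lin Latin L)
open Q112.WN (In mem_In Sparse In_lt)

variable {X Y Z : Type*} [DecidableEq X] [DecidableEq Y] [DecidableEq Z] {H : Finset (X × Y × Z)}

/-- in a Latin square there are `s ≤ m²` triples on at most `s + 3` vertices -/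
theorem latin_sparse (hl : Lin H) {A : Finset X} {B : Finset Y} {C : Finset Z} (hL : Latin H A B C)
    {s : ℕ} (hs : 0 < s) (hsp : Sparse s H) : A.card ^ 2 < s := by
  classical
  by_contra hcon
  push Not at hcon
  obtain ⟨hAB, hBC, h1, h2, h3⟩ := hL
  have hA0 : A.Nonempty := by
    rw [← card_pos]
    by_contra h0
    have : A.card = 0 := by omega
    rw [this] at hcon
    simp at hcon
    omega
  have hB0 : B.Nonempty := card_pos.1 (by rw [← hAB]; exact card_pos.2 hA0)
  -- closed sets of vertices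
  have closed : ∀ (A' : Finset X) (B' : Finset Y) (C' : Finset Z), A' ⊆ A → B' ⊆ B → C' ⊆ C →
      A'.Nonempty → B'.Nonempty → C'.Nonempty →
      (∀ a ∈ A', ∀ b ∈ B', ∀ c ∈ C, (a, b, c) ∈ H → c ∈ C') →
      (∀ a ∈ A', ∀ c ∈ C', ∀ b ∈ B, (a, b, c) ∈ H → b ∈ B') →
      (∀ b ∈ B', ∀ c ∈ C', ∀ a ∈ A, (a, b, c) ∈ H → a ∈ A') →
      A'.card = B'.card ∧ B'.card = C'.card ∧ A'.card * B'.card ≤ (In H A' B' C').card := by
    intro A' B' C' hA hB hC hA1 hB1 hC1 g1 g2 g3
    obtain ⟨a0, ha0⟩ := hA1
    obtain ⟨b0, hb0⟩ := hB1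
    have e1 : B'.card = C'.card := by
      refine le_antisymm ?_ ?_
      · refine card_le_card_of_forall_subsingleton (fun b c => (a0, b, c) ∈ H) ?_ ?_
        · intro b hb
          obtain ⟨c, hc, habc⟩ := h1 a0 (hA ha0) b (hB hb)
          exact ⟨c, g1 a0 ha0 b hb c hc habc, habc⟩
        · rintro c _ b hb b' hb'
          exact congrArg (fun g : X × Y × Z => g.2.1) (hl _ hb.2 _ hb'.2 (Or.inr (Or.inl ⟨rfl, rfl⟩)))
      · refine card_le_card_of_forall_subsingleton (fun c b => (a0, b, c) ∈ H) ?_ ?_
        · intro c hc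
          obtain ⟨b, hb, habc⟩ := h2 a0 (hA ha0) c (hC hc)
          exact ⟨b, g2 a0 ha0 c hc b hb habc, habc⟩
        · rintro b _ c hc c' hc'
          exact congrArg (fun g : X × Y × Z => g.2.2) (hl _ hc.2 _ hc'.2 (Or.inl ⟨rfl, rfl⟩))
    have e2 : A'.card = C'.card := by
      refine le_antisymm ?_ ?_
      · refine card_le_card_of_forall_subsingleton (fun a c => (a, b0, c) ∈ H) ?_ ?_
        · intro a ha
          obtain ⟨c, hc, habc⟩ := h1 a (hA ha) b0 (hB hb0)
          exact ⟨c, g1 a ha b0 hb0 c hc habc, habc⟩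
        · rintro c _ a ha a' ha'
          exact congrArg (fun g : X × Y × Z => g.1) (hl _ ha.2 _ ha'.2 (Or.inr (Or.inr ⟨rfl, rfl⟩)))
      · refine card_le_card_of_forall_subsingleton (fun c a => (a, b0, c) ∈ H) ?_ ?_
        · intro c hc
          obtain ⟨a, ha, habc⟩ := h3 b0 (hB hb0) c (hC hc)
          exact ⟨a, g3 b0 hb0 c hc a ha habc, habc⟩
        · rintro a _ c hc c' hc'
          exact congrArg (fun g : X × Y × Z => g.2.2) (hl _ hc.2 _ hc'.2 (Or.inl ⟨rfl, rfl⟩))
    refine ⟨e2.trans e1.symm, e1, ?_⟩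
    rw [← card_product]
    refine card_le_card_of_forall_subsingleton (fun q g => g.1 = q.1 ∧ g.2.1 = q.2) ?_ ?_
    · rintro ⟨a, b⟩ hab
      obtain ⟨ha, hb⟩ := mem_product.1 hab
      obtain ⟨c, hc, habc⟩ := h1 a (hA ha) b (hB hb)
      exact ⟨(a, b, c), mem_In.2 ⟨habc, ha, hb, g1 a ha b hb c hc habc⟩, rfl, rfl⟩
    · rintro g _ ⟨a, b⟩ ⟨_, e3, e4⟩ ⟨a', b'⟩ ⟨_, e3', e4'⟩
      exact Prod.ext (e3.symm.trans e3') (e4.symm.trans e4')
  -- growing sets of vertices
  have grow : ∀ n, n ≤ s → ∃ (A' : Finset X) (B' : Finset Y) (C' : Finset Z), A' ⊆ A ∧ B' ⊆ B ∧ C' ⊆ C ∧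
      A'.Nonempty ∧ B'.Nonempty ∧ C'.Nonempty ∧ A'.card + B'.card + C'.card = n + 3 ∧
      n ≤ (In H A' B' C').card := by
    intro n
    induction n with
    | zero =>
      intro _
      obtain ⟨a, ha⟩ := hA0
      obtain ⟨b, hb⟩ := hB0
      obtain ⟨c, hc, _⟩ := h1 a ha b hb
      exact ⟨{a}, {b}, {c}, singleton_subset_iff.2 ha, singleton_subset_iff.2 hb,
        singleton_subset_iff.2 hc, singleton_nonempty _, singleton_nonempty _, singleton_nonempty _,
        by simp, Nat.zero_le _⟩
    | succ n ih =>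
      intro hn
      obtain ⟨A', B', C', hA, hB, hC, hA1, hB1, hC1, hcard, hIn⟩ := ih (by omega)
      by_cases g1 : ∀ a ∈ A', ∀ b ∈ B', ∀ c ∈ C, (a, b, c) ∈ H → c ∈ C'
      · by_cases g2 : ∀ a ∈ A', ∀ c ∈ C', ∀ b ∈ B, (a, b, c) ∈ H → b ∈ B'
        · by_cases g3 : ∀ b ∈ B', ∀ c ∈ C', ∀ a ∈ A, (a, b, c) ∈ H → a ∈ A'
          · obtain ⟨e1, e2, e3⟩ := closed A' B' C' hA hB hC hA1 hB1 hC1 g1 g2 g3
            have hk := card_pos.2 hA1
            have hne : A' ≠ A := by
              intro h0
              have h4 : (In H A' B' C').card < s := hsp.In_lt (by omega)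
              rw [← e1, h0] at e3
              rw [h0] at h4
              nlinarith
            obtain ⟨a, ha, haA⟩ := exists_of_ssubset (hA.ssubset_of_ne hne)
            refine ⟨insert a A', B', C', insert_subset ha hA, hB, hC, insert_nonempty _ _, hB1, hC1, ?_, ?_⟩
            · rw [card_insert_of_notMem haA]; omega
            · have h5 : (In H A' B' C').card ≤ (In H (insert a A') B' C').card := by
                refine card_le_card fun g hg => ?_
                rw [mem_In] at hg ⊢
                exact ⟨hg.1, mem_insert_of_mem hg.2.1, hg.2.2⟩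
              refine le_trans ?_ h5
              refine le_trans ?_ e3
              rw [← e1]
              have h6 : 3 * A'.card = n + 3 := by omega
              by_cases h7 : A'.card ≤ 2
              · interval_cases hA'c : A'.card <;> omega
              · nlinarith
          · push Not at g3
            obtain ⟨b, hb, c, hc, a, ha, habc, haA⟩ := g3
            refine ⟨insert a A', B', C', insert_subset ha hA, hB, hC, insert_nonempty _ _, hB1, hC1, ?_, ?_⟩
            · rw [card_insert_of_notMem haA]; omega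
            · have h5 := In_lt (A := A') (A' := insert a A') (B := B') (B' := B') (C := C') (C' := C') habc
                (subset_insert _ _) subset_rfl subset_rfl (mem_insert_self _ _) hb hc
                (fun h => haA h.1)
              omega
        · push Not at g2
          obtain ⟨a, ha, c, hc, b, hb, habc, hbB⟩ := g2
          refine ⟨A', insert b B', C', hA, insert_subset hb hB, hC, hA1, insert_nonempty _ _, hC1, ?_, ?_⟩
          · rw [card_insert_of_notMem hbB]; omega
          · have h5 := In_lt (A := A') (A' := A') (B := B') (B' := insert b B') (C := C') (C' := C') habc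
              subset_rfl (subset_insert _ _) subset_rfl ha (mem_insert_self _ _) hc
              (fun h => hbB h.2.1)
            omega
      · push Not at g1
        obtain ⟨a, ha, b, hb, c, hc, habc, hcC⟩ := g1
        refine ⟨A', B', insert c C', hA, hB, insert_subset hc hC, hA1, hB1, insert_nonempty _ _, ?_, ?_⟩
        · rw [card_insert_of_notMem hcC]; omega
        · have h5 := In_lt (A := A') (A' := A') (B := B') (B' := B') (C := C') (C' := insert c C') habc
            subset_rfl subset_rfl (subset_insert _ _) ha hb (mem_insert_self _ _)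
            (fun h => hcC h.2.2)
          omega
  obtain ⟨A', B', C', _, _, _, _, _, _, hcard, hIn⟩ := grow s le_rfl
  have := hsp.In_lt (show A'.card + B'.card + C'.card ≤ s + 3 by omega)
  omega

variable {κ : Type*} [DecidableEq κ] [Fintype κ] {wX : (κ → X) → X} {wY : (κ → Y) → Y} {wZ : (κ → Z) → Z}

/-- exchanging the first and the last coordinate -/
def sw (g : X × Y × Z) : Z × Y × X := (g.2.2, g.2.1, g.1)

lemma sw_inj : Function.Injective (sw : X × Y × Z → Z × Y × X) := by
  rintro ⟨a, b, c⟩ ⟨a', b', c'⟩ h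
  simp only [sw, Prod.mk.injEq] at h ⊢
  exact ⟨h.2.2, h.2.1, h.1⟩

lemma mem_sw {a : X} {b : Y} {c : Z} : (c, b, a) ∈ H.image sw ↔ (a, b, c) ∈ H := by
  constructor
  · intro h
    obtain ⟨g, hg, h1⟩ := mem_image.1 h
    rw [show g = (a, b, c) from sw_inj h1] at hg
    exact hg
  · exact fun h => mem_image_of_mem sw h

/-- **Linear systems closed under weak near unanimity operations** (of the third class). -/
theorem main' [Fintype X] [Fintype Y] [Fintype Z] (hκ : 2 ≤ Fintype.card κ)
    (hX : ∀ c, wX (fun _ => c) = c) (hY : ∀ c, wY (fun _ => c) = c) (hZ : ∀ c, wZ (fun _ => c) = c)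
    (hwnu : ∀ (i j : κ) (a b : Z), wZ (Function.update (fun _ => a) i b) = wZ (Function.update (fun _ => a) j b))
    (hcl : ∀ a : κ → X × Y × Z, (∀ l, a l ∈ H) → WW wX wY wZ a ∈ H) (hl : Lin H) {N : ℕ}
    (hN : ∀ A B C, Latin H A B C → A.card ≤ N) :
    H.card ^ 2 ≤ N * (Fintype.card X * Fintype.card Y * Fintype.card Z) := by
  have h := main (H := H.image sw) (wX := wZ) (wY := wY) (wZ := wX) (N := N) hκ hZ hY hX hwnu ?_ ?_ ?_
  · rw [card_image_of_injective _ sw_inj] at h
    rw [show Fintype.card X * Fintype.card Y * Fintype.card Z =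
      Fintype.card Z * Fintype.card Y * Fintype.card X by ring]
    exact h
  · intro a ha
    choose g hg hga using fun l => mem_image.1 (ha l)
    have h1 := hcl g hg
    have e : WW wZ wY wX a = sw (WW wX wY wZ g) := by
      unfold WW sw
      simp only [← hga]
      rfl
    rw [e]
    exact mem_image_of_mem sw h1
  · rintro e he e' he' h
    obtain ⟨g, hg, rfl⟩ := mem_image.1 he
    obtain ⟨g', hg', rfl⟩ := mem_image.1 he'
    congr 1
    refine hl g hg g' hg' ?_
    rcases h with h | h | h
    · exact Or.inr (Or.inr ⟨h.2, h.1⟩)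
    · exact Or.inr (Or.inl ⟨h.2, h.1⟩)
    · exact Or.inl ⟨h.2, h.1⟩
  · rintro A B C ⟨h1, h2, h3, h4, h5⟩
    rw [h1, h2]
    refine hN C B A ⟨h2.symm, h1.symm, ?_, ?_, ?_⟩
    · intro a ha b hb
      obtain ⟨c, hc, h⟩ := h5 b hb a ha
      exact ⟨c, hc, mem_sw.1 h⟩
    · intro a ha c hc
      obtain ⟨b, hb, h⟩ := h4 c hc a ha
      exact ⟨b, hb, mem_sw.1 h⟩
    · intro b hb c hc
      obtain ⟨a, ha, h⟩ := h3 c hc b hb
      exact ⟨a, ha, mem_sw.1 h⟩

/-- sparse linear systems -/
theorem sparse [Fintype X] [Fintype Y] [Fintype Z] (hκ : 2 ≤ Fintype.card κ)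
    (hX : ∀ c, wX (fun _ => c) = c) (hY : ∀ c, wY (fun _ => c) = c) (hZ : ∀ c, wZ (fun _ => c) = c)
    (hwnu : ∀ (i j : κ) (a b : Z), wZ (Function.update (fun _ => a) i b) = wZ (Function.update (fun _ => a) j b))
    (hcl : ∀ a : κ → X × Y × Z, (∀ l, a l ∈ H) → WW wX wY wZ a ∈ H) (hl : Lin H) {s : ℕ} (hs : 0 < s)
    (hsp : Sparse s H) :
    H.card ^ 2 ≤ Nat.sqrt (s - 1) * (Fintype.card X * Fintype.card Y * Fintype.card Z) := by
  refine main' hκ hX hY hZ hwnu hcl hl fun A B C h => ?_
  rw [Nat.le_sqrt']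
  have := latin_sparse hl h hs hsp
  omega

section examples
open Q112.ED (exSys exSys_card exSys_lin exSys_latin)

/-- an idempotent operation: constant tuples go to their value, all others to `0` -/
def tau {m N : ℕ} [NeZero m] (a : Fin (N + 1) → Fin m) : Fin m := if ∀ i, a i = a 0 then a 0 else 0

lemma tau_idem {m N : ℕ} [NeZero m] (x : Fin m) : tau (N := N) (fun _ => x) = x := by
  unfold tau
  rw [if_pos fun _ => rfl]

lemma tau_wnu {m N : ℕ} [NeZero m] (hN : 0 < N) (i j : Fin (N + 1)) (x y : Fin m) :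
    tau (Function.update (fun _ => x) i y) = tau (Function.update (fun _ => x) j y) := by
  by_cases hxy : x = y
  · subst hxy
    rw [Function.update_eq_self_iff.2 rfl, Function.update_eq_self_iff.2 rfl]
  · have key : ∀ i : Fin (N + 1), tau (Function.update (fun _ => x) i y) = 0 := by
      intro i
      unfold tau
      rw [if_neg]
      intro h
      have : Nontrivial (Fin (N + 1)) := Fin.nontrivial_iff_two_le.2 (by omega)
      obtain ⟨l, hl⟩ := exists_ne i
      have h1 := (h i).trans (h l).symm
      rw [Function.update_self, Function.update_of_ne hl] at h1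
      exact hxy h1.symm
    rw [key, key]

/-- the operation of the example -/
def xOp {m N : ℕ} [NeZero m] (a : Fin (N + 1) → Fin m × Fin m × ZMod N) : Fin m × Fin m × ZMod N :=
  (tau fun i => (a i).1, tau fun i => (a i).2.1, ∑ i, (a i).2.2)

lemma xOp_idem {m N : ℕ} [NeZero m] (x : Fin m × Fin m × ZMod N) : xOp (fun _ => x) = x := by
  unfold xOp
  rw [tau_idem, tau_idem, sum_const, card_univ, Fintype.card_fin, succ_nsmul, nsmul_eq_mul,
    ZMod.natCast_self, zero_mul, zero_add]

lemma xOp_wnu {m N : ℕ} [NeZero m] (hN : 0 < N) (i j : Fin (N + 1)) (x y : Fin m × Fin m × ZMod N) :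
    xOp (Function.update (fun _ => x) i y) = xOp (Function.update (fun _ => x) j y) := by
  have e1 : ∀ i : Fin (N + 1), (fun l => (Function.update (fun _ : Fin (N + 1) => x) i y l).1) =
      Function.update (fun _ => x.1) i y.1 := by
    intro i; ext1 l
    by_cases h : l = i
    · rw [h, Function.update_self, Function.update_self]
    · rw [Function.update_of_ne h, Function.update_of_ne h]
  have e2 : ∀ i : Fin (N + 1), (fun l => (Function.update (fun _ : Fin (N + 1) => x) i y l).2.1) =
      Function.update (fun _ => x.2.1) i y.2.1 := by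
    intro i; ext1 l
    by_cases h : l = i
    · rw [h, Function.update_self, Function.update_self]
    · rw [Function.update_of_ne h, Function.update_of_ne h]
  have e3 : ∀ i : Fin (N + 1), (fun l => (Function.update (fun _ : Fin (N + 1) => x) i y l).2.2) =
      Function.update (fun _ => x.2.2) i y.2.2 := by
    intro i; ext1 l
    by_cases h : l = i
    · rw [h, Function.update_self, Function.update_self]
    · rw [Function.update_of_ne h, Function.update_of_ne h]
  have e4 : ∀ i : Fin (N + 1), ∑ l, Function.update (fun _ : Fin (N + 1) => x.2.2) i y.2.2 l =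
      y.2.2 + N • x.2.2 := by
    intro i
    rw [Finset.sum_update_of_mem (mem_univ i), sum_const]
    congr 2
    rw [card_sdiff_of_subset (subset_univ _), card_univ, Fintype.card_fin, card_singleton,
      Nat.add_sub_cancel]
  have e5 : ∀ i : Fin (N + 1), xOp (Function.update (fun _ => x) i y) =
      (tau (Function.update (fun _ => x.1) i y.1), tau (Function.update (fun _ => x.2.1) i y.2.1),
        y.2.2 + N • x.2.2) := by
    intro i
    rw [← e4 i, ← e1 i, ← e2 i, ← e3 i]
    rfl
  rw [e5, e5, tau_wnu hN i j, tau_wnu hN i j]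

lemma xOp_cl {m N : ℕ} [NeZero m] [NeZero N]
    (a : Fin (N + 1) → (Fin m × Fin m × ZMod N) × (Fin m × Fin m × ZMod N) × (Fin m × Fin m × ZMod N))
    (ha : ∀ l, a l ∈ exSys m N) : WW xOp xOp xOp a ∈ exSys m N := by
  choose w hw using fun l => mem_image.1 (ha l)
  have hw := fun l => (hw l).2
  refine mem_image.2 ⟨(tau fun l => (w l).1, tau fun l => (w l).2.1, tau fun l => (w l).2.2.1,
    ∑ l, (w l).2.2.2.1, ∑ l, (w l).2.2.2.2), mem_univ _, ?_⟩
  have e : a = fun l => (((w l).1, (w l).2.1, (w l).2.2.2.1), ((w l).2.1, (w l).2.2.1, (w l).2.2.2.2),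
      ((w l).1, (w l).2.2.1, (w l).2.2.2.1 + (w l).2.2.2.2)) := by
    ext1 l
    exact (hw l).symm
  rw [e]
  refine Prod.ext rfl (Prod.ext rfl (Prod.ext rfl (Prod.ext rfl ?_)))
  change _ = ∑ l, ((w l).2.2.2.1 + (w l).2.2.2.2)
  rw [sum_add_distrib]

end examples

end Q112.WL
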