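import Pool.Agent.Q112.WL.Group
import Pool.Agent.Q112.WL.Sparse

/-!
Linear tripartite triple systems closed under weak near unanimity operations contain addition tables of
large abelian groups.
-/

set_option autoImplicit false
set_option linter.unusedSectionVars false

open Finset Relation

namespace Q112.WL

open Q112.ED (R Lin Latin L)
open Q112.WN (Sparse)

/-- `H` contains the addition table of `G` -/
def Tab {X Y Z : Type*} (H : Finset (X × Y × Z)) (G : Type*) [AddCommGroup G] : Prop :=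
  ∃ (a : G → X) (b : G → Y) (c : G → Z), Function.Injective a ∧ Function.Injective b ∧
    Function.Injective c ∧ ∀ g h, (a g, b h, c (g + h)) ∈ H

section
variable {X Y Z κ : Type*} [DecidableEq X] [DecidableEq Y] [DecidableEq Z] [DecidableEq κ] [Fintype κ]
    {H : Finset (X × Y × Z)} {wX : (κ → X) → X} {wY : (κ → Y) → Y} {wZ : (κ → Z) → Z}

lemma Tab.latin {G : Type*} [AddCommGroup G] [Fintype G] (h : Tab H G) :
    ∃ A B C, Latin H A B C ∧ A.card = Fintype.card G := by
  obtain ⟨a, b, c, ha, hb, hc, habc⟩ := h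
  refine ⟨univ.image a, univ.image b, univ.image c, ⟨?_, ?_, ?_, ?_, ?_⟩, ?_⟩
  · rw [card_image_of_injective _ ha, card_image_of_injective _ hb]
  · rw [card_image_of_injective _ hb, card_image_of_injective _ hc]
  · intro u hu v hv
    obtain ⟨g, _, rfl⟩ := mem_image.1 hu
    obtain ⟨h, _, rfl⟩ := mem_image.1 hv
    exact ⟨_, mem_image_of_mem c (mem_univ (g + h)), habc g h⟩
  · intro u hu v hv
    obtain ⟨g, _, rfl⟩ := mem_image.1 hu
    obtain ⟨s, _, rfl⟩ := mem_image.1 hv
    refine ⟨_, mem_image_of_mem b (mem_univ (s - g)), ?_⟩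
    have := habc g (s - g)
    rwa [add_sub_cancel] at this
  · intro u hu v hv
    obtain ⟨h, _, rfl⟩ := mem_image.1 hu
    obtain ⟨s, _, rfl⟩ := mem_image.1 hv
    refine ⟨_, mem_image_of_mem a (mem_univ (s - h)), ?_⟩
    have := habc (s - h) h
    rwa [sub_add_cancel] at this
  · rw [card_image_of_injective _ ha, card_univ]

lemma Tab.sw {G : Type*} [AddCommGroup G] (h : Tab (H.image sw) G) : Tab H G := by
  obtain ⟨a, b, c, ha, hb, hc, habc⟩ := h
  refine ⟨c, fun g => b (-g), a, hc, fun g h hgh => neg_injective (hb hgh), ha, fun g h => ?_⟩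
  have := habc (g + h) (-h)
  rw [add_neg_cancel_right] at this
  exact mem_sw.1 this

end

section
variable {X Y Z : Type} {κ : Type*} [DecidableEq X] [DecidableEq Y] [DecidableEq Z] [DecidableEq κ]
    [Fintype κ]
    {H : Finset (X × Y × Z)} {wX : (κ → X) → X} {wY : (κ → Y) → Y} {wZ : (κ → Z) → Z}

theorem block_group (hκ : 2 ≤ Fintype.card κ) (hX : ∀ c, wX (fun _ => c) = c)
    (hY : ∀ c, wY (fun _ => c) = c) (hZ : ∀ c, wZ (fun _ => c) = c)
    (hwnu : ∀ (i j : κ) (a b : X), wX (Function.update (fun _ => a) i b) = wX (Function.update (fun _ => a) j b))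
    (hcl : ∀ a : κ → X × Y × Z, (∀ l, a l ∈ H) → WW wX wY wZ a ∈ H) (hl : Lin H)
    {h0 : X × Y × Z} (hh0 : h0 ∈ H) :
    ∃ (G : Type) (_ : AddCommGroup G) (_ : Fintype G), Tab H G ∧ (L H h0).card ≤ Fintype.card G := by
  classical
  let P := {g : X × Y × Z // g ∈ H.filter fun g => ReflTransGen (R H) h0 g}
  have hP : ∀ g : P, g.1 ∈ H ∧ ReflTransGen (R H) h0 g.1 := fun g => mem_filter.1 g.2
  let x : P → X := fun g => g.1.1
  let y : P → Y := fun g => g.1.2.1
  let z : P → Z := fun g => g.1.2.2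
  let W : (κ → P) → P := fun a => ⟨WW wX wY wZ fun l => (a l).1, mem_filter.2
    ⟨hcl _ fun l => (hP (a l)).1, WW_conn hX hY hZ hcl hh0 _ fun l => (hP (a l)).2⟩⟩
  have hconn : ∀ g : X × Y × Z, ∀ hg : ReflTransGen (R H) h0 g,
      ReflTransGen (fun a b : P => x a = x b ∨ y a = y b) ⟨h0, mem_filter.2 ⟨hh0, ReflTransGen.refl⟩⟩
        ⟨g, mem_filter.2 ⟨Q112.ED.RR.mem hh0 hg, hg⟩⟩ := by
    intro g hg
    induction hg with
    | refl => exact ReflTransGen.refl
    | @tail b c hb hbc ih => exact ih.tail hbc.2.2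
  have hsym : ∀ a b : P, ReflTransGen (fun a b : P => x a = x b ∨ y a = y b) a b →
      ReflTransGen (fun a b : P => x a = x b ∨ y a = y b) b a := by
    intro a b h
    induction h with
    | refl => exact ReflTransGen.refl
    | tail _ hbc ih => exact ReflTransGen.head (hbc.imp Eq.symm Eq.symm) ih
  have hS : Sys x y z W := by
    refine ⟨?_, ?_, ?_, ?_, ?_, ?_, ?_, ?_, ?_⟩
    · exact fun a b h1 h2 => Subtype.ext (hl _ (hP a).1 _ (hP b).1 (Or.inl ⟨h1, h2⟩))
    · exact fun a b h1 h2 => Subtype.ext (hl _ (hP a).1 _ (hP b).1 (Or.inr (Or.inl ⟨h1, h2⟩)))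
    · exact fun a b h1 h2 => Subtype.ext (hl _ (hP a).1 _ (hP b).1 (Or.inr (Or.inr ⟨h1, h2⟩)))
    · exact fun a b h => congrArg wX (funext h)
    · exact fun a b h => congrArg wY (funext h)
    · exact fun a b h => congrArg wZ (funext h)
    · intro a
      refine Subtype.ext ?_
      change (wX _, wY _, wZ _) = a.1
      rw [hX, hY, hZ]
    · intro i j a b
      have e : ∀ i : κ, (fun l => (Function.update (fun _ : κ => a) i b l).1.1) =
          Function.update (fun _ => a.1.1) i b.1.1 := by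
        intro i
        ext1 l
        by_cases hl : l = i
        · rw [hl, Function.update_self, Function.update_self]
        · rw [Function.update_of_ne hl, Function.update_of_ne hl]
      change wX (fun l => (Function.update (fun _ : κ => a) i b l).1.1) =
        wX (fun l => (Function.update (fun _ : κ => a) j b l).1.1)
      rw [e, e]
      exact hwnu i j _ _
    · intro a b
      exact (hsym _ _ (hconn a.1 (hP a).2)).trans (hconn b.1 (hP b).2)
  let g0 : P := ⟨h0, mem_filter.2 ⟨hh0, ReflTransGen.refl⟩⟩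
  obtain ⟨D, hD, a, b, c, hle, ha, hb, hc, habc⟩ := group hS hκ g0
  refine ⟨D, hD, inferInstance, ⟨a, b, c, ha, hb, hc, fun g h => ?_⟩, ?_⟩
  · obtain ⟨k, h1, h2, h3⟩ := habc g h
    rw [← h1, ← h2, ← h3]
    exact (hP k).1
  · rw [Fintype.card_coe]
    refine le_trans (card_le_card_of_injOn (fun g => if hg : g ∈ H.filter (fun g => ReflTransGen (R H) h0 g)
      then (⟨g, hg⟩ : P) else g0) ?_ ?_) hle
    · intro g hg
      have h4 := Q112.ED.mem_L.1 (mem_coe.1 hg)
      have h5 : g ∈ H.filter (fun g => ReflTransGen (R H) h0 g) := mem_filter.2 ⟨h4.1, h4.2.2⟩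
      simp only
      rw [dif_pos h5]
      exact mem_coe.2 (mem_filter.2 ⟨mem_univ _, h4.2.1⟩)
    · intro g hg g' hg' h
      have h4 := Q112.ED.mem_L.1 (mem_coe.1 hg)
      have h5 : g ∈ H.filter (fun g => ReflTransGen (R H) h0 g) := mem_filter.2 ⟨h4.1, h4.2.2⟩
      have h4' := Q112.ED.mem_L.1 (mem_coe.1 hg')
      have h5' : g' ∈ H.filter (fun g => ReflTransGen (R H) h0 g) := mem_filter.2 ⟨h4'.1, h4'.2.2⟩
      simp only at h
      rw [dif_pos h5, dif_pos h5'] at h
      exact congrArg Subtype.val h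

/-- **Large abelian groups in linear systems closed under weak near unanimity operations** (of the first
class). -/
theorem group_main [Fintype X] [Fintype Y] [Fintype Z] (hκ : 2 ≤ Fintype.card κ)
    (hX : ∀ c, wX (fun _ => c) = c) (hY : ∀ c, wY (fun _ => c) = c) (hZ : ∀ c, wZ (fun _ => c) = c)
    (hwnu : ∀ (i j : κ) (a b : X), wX (Function.update (fun _ => a) i b) = wX (Function.update (fun _ => a) j b))
    (hcl : ∀ a : κ → X × Y × Z, (∀ l, a l ∈ H) → WW wX wY wZ a ∈ H) (hl : Lin H) (hne : H.Nonempty) :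
    ∃ (G : Type) (_ : AddCommGroup G) (_ : Fintype G), Tab H G ∧
      H.card ^ 2 ≤ Fintype.card G * (Fintype.card X * Fintype.card Y * Fintype.card Z) := by
  classical
  obtain ⟨h0, hh0, hmax⟩ := exists_max_image H (fun h => (L H h).card) hne
  obtain ⟨G, iG, fG, hT, hc⟩ := block_group hκ hX hY hZ hwnu hcl hl hh0
  refine ⟨G, iG, fG, hT, ?_⟩
  have h := Q112.ED.count H 1 (Fintype.card G) ?_ (fun h hh => (hmax h hh).trans hc)
  · rwa [one_mul] at h
  · intro x y
    rw [card_le_one]
    intro a ha b hb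
    have ha' := mem_filter.1 ha
    have hb' := mem_filter.1 hb
    exact hl a ha'.1 b hb'.1 (Or.inl ⟨ha'.2.1.trans hb'.2.1.symm, ha'.2.2.trans hb'.2.2.symm⟩)

/-- **Large abelian groups in linear systems closed under weak near unanimity operations** (of the third
class). -/
theorem group_main' [Fintype X] [Fintype Y] [Fintype Z] (hκ : 2 ≤ Fintype.card κ)
    (hX : ∀ c, wX (fun _ => c) = c) (hY : ∀ c, wY (fun _ => c) = c) (hZ : ∀ c, wZ (fun _ => c) = c)
    (hwnu : ∀ (i j : κ) (a b : Z), wZ (Function.update (fun _ => a) i b) = wZ (Function.update (fun _ => a) j b))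
    (hcl : ∀ a : κ → X × Y × Z, (∀ l, a l ∈ H) → WW wX wY wZ a ∈ H) (hl : Lin H) (hne : H.Nonempty) :
    ∃ (G : Type) (_ : AddCommGroup G) (_ : Fintype G), Tab H G ∧
      H.card ^ 2 ≤ Fintype.card G * (Fintype.card X * Fintype.card Y * Fintype.card Z) := by
  have hcl' : ∀ a : κ → Z × Y × X, (∀ l, a l ∈ H.image sw) → WW wZ wY wX a ∈ H.image sw := by
    intro a ha
    choose g hg hga using fun l => mem_image.1 (ha l)
    have h1 := hcl g hg
    have e : WW wZ wY wX a = sw (WW wX wY wZ g) := by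
      unfold WW sw
      simp only [← hga]
      rfl
    rw [e]
    exact mem_image_of_mem sw h1
  have hl' : Lin (H.image sw) := by
    rintro e he e' he' h
    obtain ⟨g, hg, rfl⟩ := mem_image.1 he
    obtain ⟨g', hg', rfl⟩ := mem_image.1 he'
    congr 1
    refine hl g hg g' hg' ?_
    rcases h with h | h | h
    · exact Or.inr (Or.inr ⟨h.2, h.1⟩)
    · exact Or.inr (Or.inl ⟨h.2, h.1⟩)
    · exact Or.inl ⟨h.2, h.1⟩
  obtain ⟨G, iG, fG, hT, h⟩ := group_main hκ hZ hY hX hwnu hcl' hl' (hne.image sw)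
  rw [card_image_of_injective _ sw_inj] at h
  refine ⟨G, iG, fG, hT.sw, ?_⟩
  rw [show Fintype.card X * Fintype.card Y * Fintype.card Z =
    Fintype.card Z * Fintype.card Y * Fintype.card X by ring]
  exact h

end

end Q112.WL
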