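import Pool.Agent.Q112.WL.Core

/-!
Linear tripartite triple systems closed under weak near unanimity operations: Latin squares.
-/

set_option autoImplicit false
set_option linter.unusedSectionVars false

open Finset Relation

namespace Q112.WL

variable {P X Y Z κ : Type*} [DecidableEq κ] [DecidableEq X] [DecidableEq Y] [DecidableEq Z]
    [DecidableEq P] [Fintype P] [Fintype κ]
    {x : P → X} {y : P → Y} {z : P → Z} {W : (κ → P) → P}

/-- link blocks embed in Latin squares -/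
lemma latin (hS : Sys x y z W) (hκ : 2 ≤ Fintype.card κ) (h0 : P) :
    ∃ (A : Finset X) (B : Finset Y) (C : Finset Z), (univ.filter fun g => z g = z h0).card ≤ A.card ∧
      A.card = B.card ∧ B.card = C.card ∧ (∀ a ∈ A, ∀ b ∈ B, ∃ g, x g = a ∧ y g = b ∧ z g ∈ C) ∧
      (∀ a ∈ A, ∀ c ∈ C, ∃ g, x g = a ∧ y g ∈ B ∧ z g = c) ∧
      ∀ b ∈ B, ∀ c ∈ C, ∃ g, x g ∈ A ∧ y g = b ∧ z g = c := by
  obtain ⟨e, p, he, hee, hpe, hp, hpx, hpy, hpz⟩ := exists_maltsev hS hκ
  -- the retract is rectangular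
  have hrect : ∀ g g', e g = g → e g' = g' → ∃ k, e k = k ∧ x k = x g ∧ y k = y g' := by
    have key : ∀ g g', ReflTransGen (fun a b => x a = x b ∨ y a = y b) g g' → e g = g →
        ∃ k, e k = k ∧ x k = x g ∧ y k = y (e g') := by
      intro g g' h hg
      induction h with
      | refl => exact ⟨g, hg, rfl, by rw [hg]⟩
      | @tail b c _ hbc ih =>
        obtain ⟨k, hk, hkx, hky⟩ := ih
        rcases hbc with h1 | h1
        · refine ⟨p k (e b) (e c), hpe _ _ _, ?_, ?_⟩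
          · have h2 := hpx k (e b) (e c) k (e b) (e b) rfl rfl (he.fx _ _ h1).symm
            rw [(hp k (e b) hk (hee b)).1] at h2
            rw [h2, hkx]
          · have h2 := hpy k (e b) (e c) (e b) (e b) (e c) hky rfl rfl
            rw [(hp (e c) (e b) (hee c) (hee b)).2] at h2
            exact h2
        · exact ⟨k, hk, hkx, by rw [hky]; exact he.fy _ _ h1⟩
    intro g g' hg hg'
    obtain ⟨k, hk, h1, h2⟩ := key g g' (hS.conn g g') hg
    rw [hg'] at h2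
    exact ⟨k, hk, h1, h2⟩
  -- the block in the retract
  set D : Finset P := univ.filter fun g => e g = g ∧ z g = z (e h0) with hD
  have mem_D : ∀ {g}, g ∈ D ↔ e g = g ∧ z g = z (e h0) := by
    intro g
    rw [hD, mem_filter]
    exact ⟨fun h => h.2, fun h => ⟨mem_univ _, h⟩⟩
  have hDcard : (univ.filter fun g => z g = z h0).card ≤ D.card := by
    refine card_le_card_of_injOn e ?_ ?_
    · intro g hg
      rw [mem_coe, mem_D]
      exact ⟨hee g, he.fz _ _ (mem_filter.1 (mem_coe.1 hg)).2⟩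
    · intro g hg g' hg' h
      have h1 := (mem_filter.1 (mem_coe.1 hg)).2
      have h2 := (mem_filter.1 (mem_coe.1 hg')).2
      exact he.inj g g' (h1.trans h2.symm) h
  have hpD : ∀ a ∈ D, ∀ b ∈ D, ∀ c ∈ D, p a b c ∈ D := by
    intro a ha b hb c hc
    rw [mem_D] at ha hb hc ⊢
    refine ⟨hpe _ _ _, ?_⟩
    rw [← ha.2, hpz a b c a a a rfl (hb.2.trans ha.2.symm) (hc.2.trans ha.2.symm),
      (hp a a ha.1 ha.1).1]
  -- the Latin square
  set A := D.image x with hA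
  set B := D.image y with hB
  set C := (univ.filter fun k => e k = k ∧ x k ∈ A ∧ y k ∈ B).image z with hC
  have hAc : A.card = D.card := by
    refine card_image_of_injOn fun a ha b hb hab => ?_
    exact hS.hxz a b hab ((mem_D.1 ha).2.trans (mem_D.1 hb).2.symm)
  have hBc : B.card = D.card := by
    refine card_image_of_injOn fun a ha b hb hab => ?_
    exact hS.hyz a b hab ((mem_D.1 ha).2.trans (mem_D.1 hb).2.symm)
  have h1 : ∀ a ∈ A, ∀ b ∈ B, ∃ g, x g = a ∧ y g = b ∧ z g ∈ C := by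
    intro a ha b hb
    obtain ⟨u, hu, rfl⟩ := mem_image.1 ha
    obtain ⟨v, hv, rfl⟩ := mem_image.1 hb
    obtain ⟨k, hk, hkx, hky⟩ := hrect u v (mem_D.1 hu).1 (mem_D.1 hv).1
    refine ⟨k, hkx, hky, mem_image_of_mem _ (mem_filter.2 ⟨mem_univ _, hk, ?_, ?_⟩)⟩
    · rw [hkx]; exact ha
    · rw [hky]; exact hb
  have h2 : ∀ a ∈ A, ∀ c ∈ C, ∃ g, x g = a ∧ y g ∈ B ∧ z g = c := by
    intro a ha c hc
    obtain ⟨g, hg, rfl⟩ := mem_image.1 ha
    obtain ⟨h, hh, rfl⟩ := mem_image.1 hc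
    obtain ⟨_, hhe, hhx, hhy⟩ := mem_filter.1 hh
    obtain ⟨k, hk, hkx⟩ := mem_image.1 hhx
    obtain ⟨j, hj, hjy⟩ := mem_image.1 hhy
    have hg' := mem_D.1 hg
    have hk' := mem_D.1 hk
    refine ⟨p g k h, ?_, ?_, ?_⟩
    · rw [hpx g k h g k k rfl rfl hkx.symm, (hp g k hg'.1 hk'.1).1]
    · rw [hpy g k h g k j rfl rfl hjy.symm]
      exact mem_image_of_mem _ (hpD g hg k hk j hj)
    · rw [hpz g k h k k h (hg'.2.trans hk'.2.symm) rfl rfl, (hp h k hhe hk'.1).2]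
  have h3 : ∀ b ∈ B, ∀ c ∈ C, ∃ g, x g ∈ A ∧ y g = b ∧ z g = c := by
    intro b hb c hc
    obtain ⟨g, hg, rfl⟩ := mem_image.1 hb
    obtain ⟨h, hh, rfl⟩ := mem_image.1 hc
    obtain ⟨_, hhe, hhx, hhy⟩ := mem_filter.1 hh
    obtain ⟨k, hk, hkx⟩ := mem_image.1 hhx
    obtain ⟨j, hj, hjy⟩ := mem_image.1 hhy
    have hg' := mem_D.1 hg
    have hj' := mem_D.1 hj
    refine ⟨p g j h, ?_, ?_, ?_⟩
    · rw [hpx g j h g j k rfl rfl hkx.symm]
      exact mem_image_of_mem _ (hpD g hg j hj k hk)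
    · rw [hpy g j h g j j rfl rfl hjy.symm, (hp g j hg'.1 hj'.1).1]
    · rw [hpz g j h j j h (hg'.2.trans hj'.2.symm) rfl rfl, (hp h j hhe hj'.1).2]
  have hD0 : e h0 ∈ D := mem_D.2 ⟨hee h0, rfl⟩
  have hx0 : x (e h0) ∈ A := mem_image_of_mem _ hD0
  have hBC : B.card = C.card := by
    refine le_antisymm ?_ ?_
    · refine card_le_card_of_forall_subsingleton
        (fun b c => ∃ g, x g = x (e h0) ∧ y g = b ∧ z g = c) ?_ ?_
      · intro b hb
        obtain ⟨g, hg1, hg2, hg3⟩ := h1 _ hx0 b hb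
        exact ⟨z g, hg3, g, hg1, hg2, rfl⟩
      · rintro c _ b ⟨_, g, hg1, hg2, hg3⟩ b' ⟨_, g', hg1', hg2', hg3'⟩
        rw [← hg2, ← hg2', hS.hxz g g' (hg1.trans hg1'.symm) (hg3.trans hg3'.symm)]
    · refine card_le_card_of_forall_subsingleton
        (fun c b => ∃ g, x g = x (e h0) ∧ y g = b ∧ z g = c) ?_ ?_
      · intro c hc
        obtain ⟨g, hg1, hg2, hg3⟩ := h2 _ hx0 c hc
        exact ⟨y g, hg2, g, hg1, rfl, hg3⟩
      · rintro b _ c ⟨_, g, hg1, hg2, hg3⟩ c' ⟨_, g', hg1', hg2', hg3'⟩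
        rw [← hg3, ← hg3', hS.hxy g g' (hg1.trans hg1'.symm) (hg2.trans hg2'.symm)]
  exact ⟨A, B, C, by rw [hAc]; exact hDcard, hAc.trans hBc.symm, hBC, h1, h2, h3⟩

end Q112.WL
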