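import Pool.Agent.Q112.WL.Latin

/-!
Linear tripartite triple systems closed under weak near unanimity operations: the theorem.
-/

set_option autoImplicit false
set_option linter.unusedSectionVars false

open Finset Relation

namespace Q112.WL

open Q112.ED (R Lin Latin L)

variable {X Y Z κ : Type*} [DecidableEq X] [DecidableEq Y] [DecidableEq Z] [DecidableEq κ] [Fintype κ]
    {H : Finset (X × Y × Z)} {wX : (κ → X) → X} {wY : (κ → Y) → Y} {wZ : (κ → Z) → Z}

/-- the operation on triples -/
def WW (wX : (κ → X) → X) (wY : (κ → Y) → Y) (wZ : (κ → Z) → Z) (a : κ → X × Y × Z) : X × Y × Z :=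
  (wX fun l => (a l).1, wY fun l => (a l).2.1, wZ fun l => (a l).2.2)

/-- the operation does not leave the component -/
lemma WW_conn (hX : ∀ c, wX (fun _ => c) = c) (hY : ∀ c, wY (fun _ => c) = c)
    (hZ : ∀ c, wZ (fun _ => c) = c) (hcl : ∀ a : κ → X × Y × Z, (∀ l, a l ∈ H) → WW wX wY wZ a ∈ H)
    {h0 : X × Y × Z} (hh0 : h0 ∈ H) (a : κ → X × Y × Z) (ha : ∀ l, ReflTransGen (R H) h0 (a l)) :
    ReflTransGen (R H) h0 (WW wX wY wZ a) := by
  have hmem : ∀ l, a l ∈ H := fun l => Q112.ED.RR.mem hh0 (ha l)
  have key : ∀ S : Finset κ, ReflTransGen (R H) h0 (WW wX wY wZ fun l => if l ∈ S then a l else h0) := by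
    intro S
    induction S using Finset.induction_on with
    | empty =>
      have : WW wX wY wZ (fun l => if l ∈ (∅ : Finset κ) then a l else h0) = h0 := by
        simp only [notMem_empty, if_false, WW, hX, hY, hZ]
      rw [this]
    | insert m S hm ih =>
      refine ih.trans ?_
      have e1 : (fun l => if l ∈ S then a l else h0) =
          Function.update (fun l => if l ∈ S then a l else h0) m h0 := by
        symm
        refine Function.update_eq_self_iff.2 ?_
        rw [if_neg hm]
      have e2 : (fun l => if l ∈ insert m S then a l else h0) =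
          Function.update (fun l => if l ∈ S then a l else h0) m (a m) := by
        ext1 l
        by_cases hl : l = m
        · rw [hl, Function.update_self, if_pos (mem_insert_self _ _)]
        · rw [Function.update_of_ne hl]
          simp only [mem_insert, hl, false_or]
      rw [e1, e2]
      have hu : ∀ c ∈ H, ∀ l, Function.update (fun l => if l ∈ S then a l else h0) m c l ∈ H := by
        intro c hc l
        by_cases hl : l = m
        · rw [hl, Function.update_self]; exact hc
        · rw [Function.update_of_ne hl]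
          split_ifs
          · exact hmem l
          · exact hh0
      refine ReflTransGen.lift (fun c => WW wX wY wZ
        (Function.update (fun l => if l ∈ S then a l else h0) m c)) ?_ _ _ (ha m)
      rintro b c ⟨hb, hc, hbc⟩
      refine ⟨hcl _ (hu b hb), hcl _ (hu c hc), ?_⟩
      rcases hbc with h1 | h1
      · left
        change wX _ = wX _
        congr 1
        ext1 l
        by_cases hl : l = m
        · rw [hl, Function.update_self, Function.update_self]; exact h1
        · rw [Function.update_of_ne hl, Function.update_of_ne hl]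
      · right
        change wY _ = wY _
        congr 1
        ext1 l
        by_cases hl : l = m
        · rw [hl, Function.update_self, Function.update_self]; exact h1
        · rw [Function.update_of_ne hl, Function.update_of_ne hl]
  have := key univ
  simpa using this

theorem block (hκ : 2 ≤ Fintype.card κ) (hX : ∀ c, wX (fun _ => c) = c) (hY : ∀ c, wY (fun _ => c) = c)
    (hZ : ∀ c, wZ (fun _ => c) = c)
    (hwnu : ∀ (i j : κ) (a b : X), wX (Function.update (fun _ => a) i b) = wX (Function.update (fun _ => a) j b))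
    (hcl : ∀ a : κ → X × Y × Z, (∀ l, a l ∈ H) → WW wX wY wZ a ∈ H) (hl : Lin H)
    {h0 : X × Y × Z} (hh0 : h0 ∈ H) : ∃ A B C, Latin H A B C ∧ (L H h0).card ≤ A.card := by
  classical
  let P := {g : X × Y × Z // g ∈ H.filter fun g => ReflTransGen (R H) h0 g}
  have hP : ∀ g : P, g.1 ∈ H ∧ ReflTransGen (R H) h0 g.1 := fun g => mem_filter.1 g.2
  let x : P → X := fun g => g.1.1
  let y : P → Y := fun g => g.1.2.1
  let z : P → Z := fun g => g.1.2.2
  let W : (κ → P) → P := fun a => ⟨WW wX wY wZ fun l => (a l).1, mem_filter.2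
    ⟨hcl _ fun l => (hP (a l)).1, WW_conn hX hY hZ hcl hh0 _ fun l => (hP (a l)).2⟩⟩
  have hconn : ∀ g : X × Y × Z, ∀ hg : ReflTransGen (R H) h0 g,
      ReflTransGen (fun a b : P => x a = x b ∨ y a = y b) ⟨h0, mem_filter.2 ⟨hh0, ReflTransGen.refl⟩⟩
        ⟨g, mem_filter.2 ⟨Q112.ED.RR.mem hh0 hg, hg⟩⟩ := by
    intro g hg
    induction hg with
    | refl => exact ReflTransGen.refl
    | @tail b c hb hbc ih => exact ih.tail hbc.2.2
  have hsym : ∀ a b : P, ReflTransGen (fun a b : P => x a = x b ∨ y a = y b) a b →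
      ReflTransGen (fun a b : P => x a = x b ∨ y a = y b) b a := by
    intro a b h
    induction h with
    | refl => exact ReflTransGen.refl
    | tail _ hbc ih => exact ReflTransGen.head (hbc.imp Eq.symm Eq.symm) ih
  have hS : Sys x y z W := by
    refine ⟨?_, ?_, ?_, ?_, ?_, ?_, ?_, ?_, ?_⟩
    · exact fun a b h1 h2 => Subtype.ext (hl _ (hP a).1 _ (hP b).1 (Or.inl ⟨h1, h2⟩))
    · exact fun a b h1 h2 => Subtype.ext (hl _ (hP a).1 _ (hP b).1 (Or.inr (Or.inl ⟨h1, h2⟩)))
    · exact fun a b h1 h2 => Subtype.ext (hl _ (hP a).1 _ (hP b).1 (Or.inr (Or.inr ⟨h1, h2⟩)))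
    · exact fun a b h => congrArg wX (funext h)
    · exact fun a b h => congrArg wY (funext h)
    · exact fun a b h => congrArg wZ (funext h)
    · intro a
      refine Subtype.ext ?_
      change (wX _, wY _, wZ _) = a.1
      rw [hX, hY, hZ]
    · intro i j a b
      have e : ∀ i : κ, (fun l => (Function.update (fun _ : κ => a) i b l).1.1) =
          Function.update (fun _ => a.1.1) i b.1.1 := by
        intro i
        ext1 l
        by_cases hl : l = i
        · rw [hl, Function.update_self, Function.update_self]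
        · rw [Function.update_of_ne hl, Function.update_of_ne hl]
      change wX (fun l => (Function.update (fun _ : κ => a) i b l).1.1) =
        wX (fun l => (Function.update (fun _ : κ => a) j b l).1.1)
      rw [e, e]
      exact hwnu i j _ _
    · intro a b
      exact (hsym _ _ (hconn a.1 (hP a).2)).trans (hconn b.1 (hP b).2)
  let g0 : P := ⟨h0, mem_filter.2 ⟨hh0, ReflTransGen.refl⟩⟩
  obtain ⟨A, B, C, hle, hAB, hBC, h1, h2, h3⟩ := latin hS hκ g0
  have hval : ∀ (g : P) {a b c}, x g = a → y g = b → z g = c → (a, b, c) ∈ H := by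
    rintro g a b c rfl rfl rfl
    exact (hP g).1
  refine ⟨A, B, C, ⟨hAB, hBC, ?_, ?_, ?_⟩, ?_⟩
  · intro a ha b hb
    obtain ⟨g, g1, g2, g3⟩ := h1 a ha b hb
    exact ⟨z g, g3, hval g g1 g2 rfl⟩
  · intro a ha c hc
    obtain ⟨g, g1, g2, g3⟩ := h2 a ha c hc
    exact ⟨y g, g2, hval g g1 rfl g3⟩
  · intro b hb c hc
    obtain ⟨g, g1, g2, g3⟩ := h3 b hb c hc
    exact ⟨x g, g1, hval g rfl g2 g3⟩
  · refine le_trans (card_le_card_of_injOn (fun g => if hg : g ∈ H.filter (fun g => ReflTransGen (R H) h0 g)
      then (⟨g, hg⟩ : P) else g0) ?_ ?_) hle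
    · intro g hg
      have h4 := Q112.ED.mem_L.1 (mem_coe.1 hg)
      have h5 : g ∈ H.filter (fun g => ReflTransGen (R H) h0 g) := mem_filter.2 ⟨h4.1, h4.2.2⟩
      simp only
      rw [dif_pos h5]
      exact mem_coe.2 (mem_filter.2 ⟨mem_univ _, h4.2.1⟩)
    · intro g hg g' hg' h
      have h4 := Q112.ED.mem_L.1 (mem_coe.1 hg)
      have h5 : g ∈ H.filter (fun g => ReflTransGen (R H) h0 g) := mem_filter.2 ⟨h4.1, h4.2.2⟩
      have h4' := Q112.ED.mem_L.1 (mem_coe.1 hg')
      have h5' : g' ∈ H.filter (fun g => ReflTransGen (R H) h0 g) := mem_filter.2 ⟨h4'.1, h4'.2.2⟩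
      simp only at h
      rw [dif_pos h5, dif_pos h5'] at h
      exact congrArg Subtype.val h

/-- **Linear systems closed under weak near unanimity operations.** -/
theorem main [Fintype X] [Fintype Y] [Fintype Z] (hκ : 2 ≤ Fintype.card κ)
    (hX : ∀ c, wX (fun _ => c) = c) (hY : ∀ c, wY (fun _ => c) = c) (hZ : ∀ c, wZ (fun _ => c) = c)
    (hwnu : ∀ (i j : κ) (a b : X), wX (Function.update (fun _ => a) i b) = wX (Function.update (fun _ => a) j b))
    (hcl : ∀ a : κ → X × Y × Z, (∀ l, a l ∈ H) → WW wX wY wZ a ∈ H) (hl : Lin H) {N : ℕ}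
    (hN : ∀ A B C, Latin H A B C → A.card ≤ N) :
    H.card ^ 2 ≤ N * (Fintype.card X * Fintype.card Y * Fintype.card Z) := by
  classical
  have h := Q112.ED.count H 1 N ?_ ?_
  · rwa [one_mul] at h
  · intro x y
    rw [card_le_one]
    intro a ha b hb
    have ha' := mem_filter.1 ha
    have hb' := mem_filter.1 hb
    exact hl a ha'.1 b hb'.1 (Or.inl ⟨ha'.2.1.trans hb'.2.1.symm, ha'.2.2.trans hb'.2.2.symm⟩)
  · intro h hh
    obtain ⟨A, B, C, hABC, hc⟩ := block hκ hX hY hZ hwnu hcl hl hh
    exact hc.trans (hN A B C hABC)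

end Q112.WL
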